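import Pool.Agent.Helper82.PN.Goals
import Pool.Agent.Helper67.LM.Core

open MeasureTheory Set
open scoped ENNReal
open Pool.Agent.Helper47.AQ

namespace Pool.Agent.Helper83.PN

open Pool.Agent.Helper82.PN

/-- The choice of `δ`. -/
theorem choose_delta (n : ℕ) (ε₀ : ℝ) (h : 0 < ε₀) : ∃ δ : ℝ, 0 < δ ∧ δ < 1 ∧
    (1 - ε₀) * (1 + δ) ^ n ≤ (1 - δ) ^ n := by
  set δ := min (1 / 2) (ε₀ / (2 * ((n : ℝ) + 1))) with hδ
  have hn : (0 : ℝ) ≤ n := Nat.cast_nonneg n
  have h0 : 0 < δ := by rw [hδ]; positivity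
  have h1 : δ ≤ 1 / 2 := min_le_left _ _
  have h2 : δ ≤ ε₀ / (2 * ((n : ℝ) + 1)) := min_le_right _ _
  rw [le_div_iff₀ (by positivity)] at h2
  refine ⟨δ, h0, by linarith, ?_⟩
  have hb : 1 + (n : ℝ) * (-(2 * δ)) ≤ (1 + -(2 * δ)) ^ n := one_add_mul_le_pow (by linarith) n
  have h3 : 1 - ε₀ ≤ (1 - 2 * δ) ^ n := by
    have : (1 - 2 * δ) ^ n = (1 + -(2 * δ)) ^ n := by ring_nf
    rw [this]
    refine le_trans ?_ hb
    nlinarith
  have h4 : ((1 - 2 * δ) * (1 + δ)) ^ n ≤ (1 - δ) ^ n := by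
    apply pow_le_pow_left₀
    · apply mul_nonneg <;> linarith
    · nlinarith
  rw [mul_pow] at h4
  exact le_trans (mul_le_mul_of_nonneg_right h3 (by positivity)) h4

theorem gSNEAR : NEARI → SNEAR := by
  intro hN ι _ _ T hT
  classical
  set n := Fintype.card ι with hn
  obtain ⟨ε₀, hε₀, c₀, hc₀, hmin⟩ := Pool.Agent.Helper67.LM.local_min (ι := ι)
  obtain ⟨δ, hδ0, hδ1, hδ⟩ := choose_delta n ε₀ hε₀
  obtain ⟨c, hc⟩ := hT.1
  obtain ⟨ε, hε, hnear⟩ := hN ι T c hT.isBody hc δ hδ0 hδ1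
  refine ⟨ε, hε, fun K' hK' hKn hF => ?_⟩
  obtain ⟨h1, h2⟩ := hnear K' hK'.conv hK'.comp.isClosed hKn
  have hu : (1 + δ) ≠ 0 := by linarith
  let A : (ι → ℝ) ≃ᵃ[ℝ] (ι → ℝ) := AffineEquiv.homothetyUnitsMulHom c (Units.mk0 (1 + δ) hu)
  have hA : ∀ x, A x = AffineMap.homothety c (1 + δ) x := by
    intro x
    rfl
  have hAi : A '' T = AffineMap.homothety c (1 + δ) '' T := by
    ext y
    simp only [Set.mem_image, hA]
  have hD : IsSimplex (A '' T) := hT.affine A
  have hKD : K' ⊆ A '' T := by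
    intro y hy
    obtain ⟨x, hx, hxy⟩ := h2 y hy
    refine ⟨x, hx, ?_⟩
    rw [hA, AffineMap.homothety_apply, hxy]
    simp only [vsub_eq_sub, vadd_eq_add]
    rw [add_comm]
  have hsub : AffineMap.homothety c (1 - δ) '' T ⊆ K' := by
    rintro y ⟨x, hx, rfl⟩
    rw [AffineMap.homothety_apply]
    simp only [vsub_eq_sub, vadd_eq_add]
    rw [add_comm]
    exact h1 x hx
  have hfin : Module.finrank ℝ (ι → ℝ) = n := by
    rw [Module.finrank_fintype_fun_eq_card]
  have hVD : (volume (A '' T)).toReal = (1 + δ) ^ n * (volume T).toReal := by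
    rw [hAi, Measure.addHaar_image_homothety, ENNReal.toReal_mul, hfin,
      ENNReal.toReal_ofReal (abs_nonneg _), abs_of_nonneg (by positivity)]
  have hVs : (volume (AffineMap.homothety c (1 - δ) '' T)).toReal = (1 - δ) ^ n * (volume T).toReal := by
    rw [Measure.addHaar_image_homothety, ENNReal.toReal_mul, hfin,
      ENNReal.toReal_ofReal (abs_nonneg _), abs_of_nonneg (pow_nonneg (by linarith) n)]
  have hVK : (1 - δ) ^ n * (volume T).toReal ≤ (volume K').toReal := by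
    rw [← hVs]
    exact ENNReal.toReal_mono hK'.vol_ne_top (measure_mono hsub)
  have hT0 : 0 < (volume T).toReal := hT.isBody.vol_pos
  have hvol : (1 - ε₀) * (volume (A '' T)).toReal ≤ (volume K').toReal := by
    rw [hVD]
    refine le_trans ?_ hVK
    rw [← mul_assoc]
    exact mul_le_mul_of_nonneg_right hδ hT0.le
  obtain ⟨D', hD', hKD', hineq⟩ := hmin K' hK' (A '' T) hD hKD hvol
  rw [hF] at hineq
  unfold Pool.Agent.Helper82.PN.cn at hineq
  have hf : (0 : ℝ) < ((Fintype.card ι).factorial : ℝ) := by exact_mod_cast (Fintype.card ι).factorial_pos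
  have hF0 : (0 : ℝ) < ((Fintype.card ι : ℝ) + 1) / ((Fintype.card ι).factorial : ℝ) := by positivity
  have hDv : 0 < (volume D').toReal := hD'.isBody.vol_pos
  have h8 : ((Fintype.card ι : ℝ) + 1) / ((Fintype.card ι).factorial : ℝ) *
      (1 + c₀ * (1 - (volume K').toReal / (volume D').toReal)) ≤
      ((Fintype.card ι : ℝ) + 1) / ((Fintype.card ι).factorial : ℝ) * 1 := by
    rw [mul_one]
    exact hineq
  have h9 := le_of_mul_le_mul_left h8 hF0
  have h10 : c₀ * (1 - (volume K').toReal / (volume D').toReal) ≤ 0 := by linarith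
  have h11 : 1 - (volume K').toReal / (volume D').toReal ≤ 0 := by
    by_contra hcon
    push Not at hcon
    have := mul_pos hc₀ hcon
    linarith
  have h12 : (volume D').toReal ≤ (volume K').toReal := by
    have h13 : 1 ≤ (volume K').toReal / (volume D').toReal := by linarith
    rwa [one_le_div hDv] at h13
  rw [Pool.Agent.Helper67.LM.eq_of_vol_eq hK' hD'.isBody hKD' h12]
  exact hD'

end Pool.Agent.Helper83.PN
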